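import Mathlib
import Pool.Agent.H26.PosIsoD

namespace Pool.Agent.Results.MP_cf3d36_an.PositiveMiljutin

theorem result (K L : Type) [MetricSpace K] [CompactSpace K] [Uncountable K]
    [MetricSpace L] [CompactSpace L] [Uncountable L] :
    ∃ T : C(K, ℝ) ≃L[ℝ] C(L, ℝ), ∀ f : C(K, ℝ), (∀ x, 0 ≤ f x) → ∀ y, 0 ≤ T f y := by
  obtain ⟨T, hT⟩ := Pool.Agent.H26.PosIso.main K L
  exact ⟨T, fun f hf y => hT f hf y⟩

example (K : Type) [MetricSpace K] [CompactSpace K] [Uncountable K] :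
    ∃ T : C(K, ℝ) ≃L[ℝ] C(unitInterval, ℝ), ∀ f : C(K, ℝ), (∀ x, 0 ≤ f x) → ∀ y, 0 ≤ T f y := by
  haveI : Uncountable unitInterval := by
    rw [← Cardinal.aleph0_lt_mk_iff, Cardinal.mk_Icc_real zero_lt_one]
    exact Cardinal.aleph0_lt_continuum
  exact result K unitInterval

end Pool.Agent.Results.MP_cf3d36_an.PositiveMiljutin
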